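import Pool.Agent.R232.SG8

/-!
# MP_1b6454_pr: no sign function realises the Gaussian copula correlation function off `p = 1/2`

For every `p ∈ (0,1)`, `p ≠ 1/2`, and every Borel `χ : ℝ → {-1, 1}` there is a correlation
`ρ ∈ (0,1)` with `E[χ(X)χ(Y)] ≠ ψ(p,p;ρ)`.

Proof: the identity for all `ρ` forces `⟨χ,H_n⟩² = H_{n-1}(a)²/(n c(p))`, so every Hermite coefficient
of `χ` is, up to sign, that of `F = λ 1_{[|a|,∞)}` for odd `n`, `λ = 1/√(p(1-p)) > 2`.
The odd coefficients of `(F_o ∓ χ_o)/2` are `0` or those of `F_o`; multiplying by `x³` and using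
Bessel's inequality bounds weighted third differences of these coefficients, which forces one of
the two functions `F_o - χ_o`, `F_o + χ_o` to have a continuous version. But its values lie in
`{-1,0,1}` on `(-|a|,|a|)`, it is odd, and it is at least `λ/2 - 1 > 0` beyond `|a|`; this contradicts
the intermediate value theorem.
-/

set_option autoImplicit false

open MeasureTheory ProbabilityTheory Polynomial Filter
open scoped Nat NNReal Topology

namespace Pool.Agent.Results.MP_1b6454_pr.NoSignRealisation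

/-- the normalised probabilists' Hermite polynomials, by the Rodrigues formula of the problem -/
noncomputable def H (n : ℕ) (x : ℝ) : ℝ :=
  (-1) ^ n / √(n ! : ℝ) * Real.exp (x ^ 2 / 2) * deriv^[n] (fun y : ℝ => Real.exp (-y ^ 2 / 2)) x

/-- the constant `c(p) = 2π p(1-p) e^{a²}`, where `a = Φ⁻¹(p)` -/
noncomputable def c (p a : ℝ) : ℝ := 2 * Real.pi * p * (1 - p) * Real.exp (a ^ 2)

/-- the Gaussian copula correlation function
`ψ(p,p;ρ) = (1/c(p)) ∑_{n ≥ 1} (1/n) H_{n-1}(a)² ρⁿ`, where `a = Φ⁻¹(p)` -/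
noncomputable def psi (p a ρ : ℝ) : ℝ :=
  1 / c p a * ∑' n : ℕ, 1 / ((n : ℝ) + 1) * H n a ^ 2 * ρ ^ (n + 1)

/-- the centred bivariate normal law with standard marginals and correlation `ρ`: the law of
`(X, ρ X + √(1-ρ²) Z)` for independent standard normal `X`, `Z` -/
noncomputable def bivariate (ρ : ℝ) : Measure (ℝ × ℝ) :=
  ((gaussianReal 0 1).prod (gaussianReal 0 1)).map (fun q => (q.1, ρ * q.1 + √(1 - ρ ^ 2) * q.2))

open Pool.Agent.R232.SG

lemma H_eq (n : ℕ) (x : ℝ) : H n x = He n x / √(n ! : ℝ) := by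
  have h := Polynomial.hermite_eq_deriv_gaussian' n x
  have h1 : He n x = aeval x (Polynomial.hermite n) := by
    unfold He HP
    rw [Polynomial.eval_map, Polynomial.aeval_def]
    rfl
  unfold H
  rw [h1, h]
  have e1 : (fun y : ℝ => Real.exp (-y ^ 2 / 2)) = fun y : ℝ => Real.exp (-(y ^ 2 / 2)) := by
    funext y
    congr 1
    ring
  rw [e1]
  ring

lemma H_sq (n : ℕ) (x : ℝ) : H n x ^ 2 = He n x ^ 2 / (n ! : ℝ) := by
  rw [H_eq, div_pow, Real.sq_sqrt (by positivity)]

/-- **Complete negative answer to Q1.** -/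
theorem result (p a : ℝ) (hp0 : 0 < p) (hp1 : p < 1) (hp : p ≠ 1 / 2)
    (ha : (gaussianReal 0 1).real (Set.Iic a) = p)
    (χ : ℝ → ℝ) (hχ : Measurable χ) (hχ1 : ∀ x, χ x = 1 ∨ χ x = -1) :
    ∃ ρ ∈ Set.Ioo (0 : ℝ) 1, ∫ q, χ q.1 * χ q.2 ∂(bivariate ρ) ≠ psi p a ρ := by
  by_contra hcon
  push Not at hcon
  have hχb : ∀ x, |χ x| ≤ 1 := by
    intro x
    rcases hχ1 x with h | h <;> simp [h]
  have hpp : 0 < p * (1 - p) := mul_pos hp0 (by linarith)
  have hcpos : 0 < c p a := by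
    unfold c
    have := Real.exp_pos (a ^ 2)
    have := Real.pi_pos
    have : 2 * Real.pi * p * (1 - p) * Real.exp (a ^ 2) = 2 * Real.pi * (p * (1 - p)) * Real.exp (a ^ 2) := by
      ring
    rw [this]
    positivity
  have ha0 : a ≠ 0 := by
    intro h
    rw [h] at ha
    have h1 : gam.real (Set.Iic 0) = 1 / 2 := cdf_zero
    exact hp (ha.symm.trans h1)
  -- the two expansions
  obtain ⟨M, hM0, hM⟩ := He_bound |a|
  have hHM : ∀ n : ℕ, H n a ^ 2 ≤ M * ((n : ℝ) + 1) := fun n => by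
    rw [H_sq]
    exact hM n a le_rfl
  obtain ⟨v, hv⟩ : ∃ v : ℕ → ℝ, v = fun n : ℕ => if n = 0 then 0 else 1 / c p a * (1 / (n : ℝ) * H (n - 1) a ^ 2) :=
    ⟨_, rfl⟩
  have hv0 : v 0 = 0 := by rw [hv]; simp
  have hvs : ∀ n, v (n + 1) = 1 / c p a * (1 / ((n : ℝ) + 1) * H n a ^ 2) := fun n => by
    rw [hv]
    simp
  have hpsi : ∀ r : ℝ, 0 < r → r < 1 → HasSum (fun n => r ^ n * v n) (psi p a r) := by
    intro r hr0 hr1
    have hs : Summable fun n : ℕ => 1 / ((n : ℝ) + 1) * H n a ^ 2 * r ^ (n + 1) := by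
      refine Summable.of_nonneg_of_le (fun n => by positivity) (fun n => ?_)
        ((summable_geometric_of_lt_one hr0.le hr1).mul_left (M * r))
      have h1 : 1 / ((n : ℝ) + 1) * H n a ^ 2 ≤ M := by
        rw [one_div, inv_mul_le_iff₀ (by positivity)]
        linarith [hHM n]
      calc 1 / ((n : ℝ) + 1) * H n a ^ 2 * r ^ (n + 1) ≤ M * r ^ (n + 1) :=
            mul_le_mul_of_nonneg_right h1 (by positivity)
        _ = M * r * r ^ n := by ring
    have h2 := (hs.hasSum.mul_left (1 / c p a))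
    have h3 : HasSum (fun n : ℕ => r ^ (n + 1) * v (n + 1)) (psi p a r) := by
      unfold psi
      refine h2.congr_fun fun n => ?_
      rw [hvs]
      ring
    refine (hasSum_nat_add_iff' (f := fun n => r ^ n * v n) 1).mp ?_
    simp only [Finset.sum_range_one, hv0, mul_zero, sub_zero]
    exact h3
  have hbiv : ∀ r : ℝ, 0 < r → r < 1 → HasSum (fun n : ℕ => r ^ n * (cf χ n * cf χ n / (n ! : ℝ))) (psi p a r) := by
    intro r hr0 hr1
    rw [← hcon r ⟨hr0, hr1⟩]
    have h1 := biv_hasSum χ χ hχ hχ 1 1 hχb hχb r hr0.le hr1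
    have h2 : ∫ q, χ q.1 * χ q.2 ∂(bivariate r) = biv χ χ r := by
      unfold bivariate biv
      rw [integral_map (by fun_prop)]
      exact ((hχ.comp measurable_fst).mul (hχ.comp measurable_snd)).aestronglyMeasurable
    rw [h2]
    exact h1
  have he : ∀ n, cf χ n * cf χ n / (n ! : ℝ) - v n = 0 := by
    refine ps_unique (fun n => cf χ n * cf χ n / (n ! : ℝ) - v n) (1 + M / c p a) ?_ ?_
    · intro n
      have hn : (0 : ℝ) < (n ! : ℝ) := by positivity
      have h1 : |cf χ n * cf χ n / (n ! : ℝ)| ≤ 1 := by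
        rw [abs_div, abs_of_pos hn, div_le_one hn, abs_mul]
        have h2 := cf_le χ hχ 1 hχb n
        rw [one_mul] at h2
        calc |cf χ n| * |cf χ n| ≤ √(n ! : ℝ) * √(n ! : ℝ) :=
              mul_le_mul h2 h2 (abs_nonneg _) (Real.sqrt_nonneg _)
          _ = _ := Real.mul_self_sqrt hn.le
      have h3 : |v n| ≤ M / c p a := by
        rcases n with _ | n
        · rw [hv0, abs_zero]
          positivity
        · rw [hvs, abs_of_nonneg (by positivity)]
          have h4 : 1 / ((n : ℝ) + 1) * H n a ^ 2 ≤ M := by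
            rw [one_div, inv_mul_le_iff₀ (by positivity)]
            linarith [hHM n]
          calc 1 / c p a * (1 / ((n : ℝ) + 1) * H n a ^ 2) ≤ 1 / c p a * M :=
                mul_le_mul_of_nonneg_left h4 (by positivity)
            _ = _ := by ring
      exact (abs_sub _ _).trans (add_le_add h1 h3)
    · intro r hr0 hr1
      have h1 := (hbiv r hr0 hr1).sub (hpsi r hr0 hr1)
      rw [sub_self] at h1
      refine h1.congr_fun fun n => ?_
      ring
  have hcoef : ∀ n : ℕ, cf χ (n + 1) ^ 2 = He n a ^ 2 / c p a := by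
    intro n
    have h1 := he (n + 1)
    rw [hvs, H_sq, Nat.factorial_succ] at h1
    have hn : (0 : ℝ) < (n ! : ℝ) := by positivity
    push_cast at h1
    have h2 : cf χ (n + 1) * cf χ (n + 1) / (((n : ℝ) + 1) * (n ! : ℝ)) =
        1 / c p a * (1 / ((n : ℝ) + 1) * (He n a ^ 2 / (n ! : ℝ))) := by linarith
    rw [div_eq_iff (by positivity)] at h2
    rw [sq, h2]
    field_simp
  -- the core
  obtain ⟨l, hl⟩ : ∃ l : ℝ, l = 1 / √(p * (1 - p)) := ⟨_, rfl⟩
  have hsq : 0 < √(p * (1 - p)) := Real.sqrt_pos.mpr hpp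
  have hlt : √(p * (1 - p)) < 1 / 2 := by
    rw [Real.sqrt_lt' (by norm_num)]
    have : 0 < (p - 1 / 2) ^ 2 := by
      have : p - 1 / 2 ≠ 0 := sub_ne_zero.mpr hp
      positivity
    nlinarith
  have hK : 1 < l / 2 := by
    rw [hl, lt_div_iff₀ (by norm_num), one_mul, lt_div_iff₀ hsq]
    linarith
  refine core |a| (l / 2) (abs_pos.mpr ha0) hK χ hχ hχ1 fun j => ?_
  rw [hcoef]
  have hHe : He (2 * j) |a| = He (2 * j) a := by
    rcases abs_choice a with h | h
    · rw [h]
    · rw [h, He_neg, pow_mul]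
      norm_num
  have hphi : gaussianPDFReal 0 1 |a| ^ 2 = (2 * Real.pi * Real.exp (a ^ 2))⁻¹ := by
    unfold gaussianPDFReal
    rw [mul_pow, inv_pow, NNReal.coe_one, mul_one, Real.sq_sqrt (by positivity), sub_zero, sq_abs,
      ← Real.exp_nat_mul, mul_inv (2 * Real.pi), ← Real.exp_neg]
    congr 2
    push_cast
    ring
  have hl2 : l ^ 2 = 1 / (p * (1 - p)) := by
    rw [hl, div_pow, one_pow, Real.sq_sqrt hpp.le]
  rw [hHe]
  have e : (2 * (l / 2) * gaussianPDFReal 0 1 |a| * He (2 * j) a) ^ 2 =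
      l ^ 2 * gaussianPDFReal 0 1 |a| ^ 2 * He (2 * j) a ^ 2 := by ring
  rw [e, hl2, hphi]
  unfold c
  have h1 : (1 - p) ≠ 0 := by linarith
  have h2 : p ≠ 0 := hp0.ne'
  have h3 : Real.exp (a ^ 2) ≠ 0 := (Real.exp_pos _).ne'
  have h4 := Real.pi_ne_zero
  field_simp

end Pool.Agent.Results.MP_1b6454_pr.NoSignRealisation
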